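import Pool.Agent.H367.OS.OOri
import Mathlib

/-!
# Colmez's product formula and the abelian varieties of one sequence of cubics

A relation `r` of size `m` is one of the equations `x_i x_j = x_l`, `x_i + x_j = x_l`, `x_i = 1` with
`i, j, l < m`; the relations are numbered, the number of `r` is `ν(r)` (`relNum`). Let `G_m` be the
following polynomial with integral coefficients (`univG ℤ m`). There are variables `x_i` and `z_ij` for
`i, j < m`, a variable `c_r` for every relation `r`, and variables `y_{r,l}` for all relations `r` and
`l < (m + 1) 2 ^ ν(r)`. The equations (`eqnG`) are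

  `z_ij - x_i x_j`,  `c_r ^ 2 - c_r`,  `c_r ρ_r`,  `(1 - c_r) y_{r,l}`,

where `ρ_r` is the linear polynomial `z_ij - x_l`, `x_i + x_j - x_l` or `x_i - 1` of the relation.
`G_m` is the sum of the equations multiplied by further variables `t_e`, one for each equation. It has
degree three. Let `C_m` be the affine cubic hypersurface `G_m = 1` (`cubG R m` over the ring `R`); it is
smooth over the integers.

Let `M` be the category of motives over `ℚ̄` in the sense of André, a semisimple abelian category with
Tate twists `N ↦ N(a)`. For a separated scheme `X` of finite type over `ℚ` let `D.G w j X = Gr^W_w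
H^j_c(X_ℚ̄)` be the part of weight `w` of the cohomology with compact supports of the base change, a
motive over `ℚ̄`; for smooth projective `Y` it is `h^j(Y_ℚ̄)` if `j = w`, and zero otherwise.

The type `C.T` consists of the pairs `t = (E, Φ)` of a CM field and a CM type, and `C.emb t` is the
set `H_E` of the embeddings of `E`. Let `C.h1 t = h^1(X)` for an abelian variety `X` over `ℚ̄` with
complex multiplication by `O_E` of type `(E, Φ)` (unique up to isogeny, so `h^1(X)` is unique up to
isomorphism). For `ψ` in `H_E` let `C.ht t ψ = ht(E, ψ, Φ)` and `C.Z t ψ = Z^∞((a^0_{E,ψ,Φ})^*, 0)`.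
`Colmez C t` is the product formula for `(E, Φ)` and all `ψ`. The following facts are hypotheses
(`IsCM`).

* `occurs`: `X` is defined over a number field `K`, and it is a direct summand of the base change to `ℚ̄`
  of the smooth projective scheme `Y = X` over `ℚ`.
* `primitive`: `Φ` is induced by a primitive CM type `Φ'` of a subfield `E'`, `X_{E,Φ}` is isogenous to a
  power of `X_{E',Φ'}`, and both sides of the product formula are the same for `(E, Φ)` and `(E', Φ')` (and
  the restriction of `ψ`).
* `albanese`: every direct factor of `h^1(Y_ℚ̄)` is `h^1(B)` for an abelian variety `B` over `ℚ̄`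
  (`AbelianVarieties`).

**Theorem.** Let `E_m` be the number of the equations, and for `N ∈ ℕ` let `e = (m + 1) N + E_m - 1`
(`esh m N`). Let `single D m N` be
the motive `Gr^W_{1+2e} H^{2+2e}_c((C_m)_ℚ̄)(e)`.

(1) For all `m ≥ 1` and `N` there is an abelian variety `B_{m,N}` over `ℚ̄` with
`h^1(B_{m,N}) = single D m N`. (It is defined over `ℚ`.)

(2) Question Q1 has a positive answer for all `(E, Φ)` and all `ψ` if and only if, for infinitely many
`m` and all `N`, it has a positive answer for all primitive CM types `(E, Φ)` such that the simple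
abelian variety `X_{E,Φ}` is, up to isogeny, a factor of `B_{m,N}`. For given `m` and `N` these are
finitely many CM types up to isomorphism.

(3) For every `(E, Φ)` and all large `m` there is an `N` such that `X_{E,Φ}` is, up to isogeny, a
factor of `B_{m,N}`, and such that the product formulas for the primitive CM types in (2), for this
single `B_{m,N}`, imply the product formula for `(E, Φ)`.

(4) There is a counterexample if and only if for all large `m` there are an `N` and a primitive
counterexample `(E, Φ)` such that `X_{E,Φ}` is, up to isogeny, a factor of `B_{m,N}`.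

(5) `G_m` has integral coefficients and degree at most three, and `C_m` is smooth over all rings.

The hypotheses on the motives are standard (`IsMot`): exact sequences, affine bundles, disjoint unions,
the cohomology of affine spaces, the weights of `H^j_c(X)` are between `0` and `2 dim X`, monomorphisms
split, `Gr^W_w H^j_c(X)` is a direct factor of `h^w(Y)` for some smooth projective `Y` (it is a
subquotient, by the weight spectral sequence), and every smooth projective scheme has an affine bundle
whose total space is affine (Jouanolou).

Idea of the proof. The projection of `C_m` to the affine space with the coordinates `x, z, c, y` is an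
affine bundle over the complement of the zero set `W_m` of the equations. The scheme `W_m` is the
disjoint union, over all sets `s` of relations (`c_r = 1` for `r ∈ s` and `c_r = 0` for the others), of
the products `X_s × 𝔸 ^ ((m + 1) N(s))`, where `X_s` is the affine scheme defined by the relations in
`s` and `N(s) = ∑_{r ∈ s} 2 ^ ν(r)`. The numbers `N(s)` are different, and the dimension of `X_s` is at
most `m`. So the invariant of `W_m` with the index `q + (m + 1) N(s)`, `0 ≤ q ≤ m`, is the invariant of
`X_s` with the index `q`; the other components do not contribute. Every affine scheme of finite type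
over a prime field is an `X_s`, for all large `m`.

The universal system of relations is the one of helper854 (`Pool.Agent.H854.SQ`).
-/

set_option autoImplicit false

open CategoryTheory CategoryTheory.Limits AlgebraicGeometry Pool.Agent.Y116.UV Pool.Agent.Z125.UN
  Pool.Agent.Q193.LT Pool.Agent.H854.SQ Pool.Agent.H367.OS

universe w v u



namespace Pool.Agent.Results.MP_a2beea_nt.PiecesOfOneSequence

/-- The CM types, the two sides of the product formula, and the motives `h^1(X)`. -/
structure CMData (A : Type u) where
  /-- the pairs `(E, Φ)` -/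
  T : Type w
  /-- the embeddings of `E` -/
  emb : T → Type
  /-- the number `ht(E, ψ, Φ)` -/
  ht : ∀ t : T, emb t → ℝ
  /-- the number `Z^∞((a^0_{E,ψ,Φ})^*, 0)` -/
  Z : ∀ t : T, emb t → ℝ
  /-- `Φ` is primitive -/
  primitive : T → Prop
  /-- the motive `h^1(X)` of the abelian variety of type `(E, Φ)` -/
  h1 : T → A

variable {A : Type u} [Category.{v} A]

/-- The product formula for `(E, Φ)` and all `ψ`. -/
def Colmez (C : CMData.{w} A) (t : C.T) : Prop := ∀ ψ : C.emb t, C.ht t ψ = C.Z t ψ

/-- The facts on CM types, see the explanations above. -/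
structure IsCM (D : Pieces ℚ A) (C : CMData.{w} A) : Prop where
  occurs : ∀ t : C.T, ∃ Y : Sch ℚ, SmoothProj Y ∧ Factor (C.h1 t) (D.G 1 1 Y)
  primitive : ∀ t : C.T, ∃ t' : C.T, C.primitive t' ∧ Factor (C.h1 t') (C.h1 t) ∧
    (Colmez C t ↔ Colmez C t')

/-- The single motive `Gr^W_{1+2e} H^{2+2e}_c(e)` of the hypersurface `G_m = 1`. -/
noncomputable def single (D : Pieces ℚ A) (m N : ℕ) : A :=
  (D.tw (esh m N)).obj (D.G (1 + 2 * esh m N) (1 + 2 * esh m N + 1) (cubG ℚ m))

/-- The product formulas for the primitive CM types `(E, Φ)` whose abelian variety is a factor of `N`. -/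
def Formulas (C : CMData.{w} A) (N : A) : Prop :=
  ∀ t : C.T, C.primitive t → Factor (C.h1 t) N → Colmez C t

lemma occurs_single [Abelian A] {D : Pieces ℚ A} (h : IsMot D) {R : A} {Y : Sch ℚ}
    (hY : SmoothProj Y) (hf : Factor R (D.G 1 1 Y)) :
    ∀ᶠ m in Filter.atTop, ∃ N : ℕ, Factor R (single D m N) := by
  obtain ⟨e⟩ := h.pieces.tw_nil (D.G 1 1 Y)
  have h2 := (exists_weight isPrimeField_rat h (fun S => Factor R S) 1 0).mp
    ⟨Y, hY, _, Factor.refl _, hf.trans (Factor.of_iso (by exact_mod_cast e.symm))⟩
  filter_upwards [h2] with m hm
  obtain ⟨N, S, hS, hR⟩ := hm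
  refine ⟨N, ?_⟩
  have h3 := hR.trans hS
  rw [single]
  simpa using h3

/-- **Colmez's product formula and the abelian varieties of one sequence of cubic hypersurfaces over the
integers.** See the explanations above. -/
theorem result [Abelian A] {D : Pieces ℚ A} (h : IsMot D) {Ab : Type w} {h1 : Ab → A}
    (ha : AbelianVarieties D h1) {C : CMData.{w} A} (hC : IsCM D C) :
    (∀ m, 1 ≤ m → ∀ N : ℕ, ∃ B : Ab, Nonempty (h1 B ≅ single D m N)) ∧
    ((∀ t : C.T, Colmez C t) ↔
      ∃ᶠ m in Filter.atTop, ∀ N : ℕ, Formulas C (single D m N)) ∧
    (∀ t : C.T, ∀ᶠ m in Filter.atTop, ∃ N : ℕ, Factor (C.h1 t) (single D m N) ∧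
      (Formulas C (single D m N) → Colmez C t)) ∧
    ((∃ t : C.T, ¬ Colmez C t) ↔ ∀ᶠ m in Filter.atTop, ∃ (N : ℕ) (t : C.T), C.primitive t ∧
      Factor (C.h1 t) (single D m N) ∧ ¬ Colmez C t) ∧
    ∀ m : ℕ, (univG ℤ m).totalDegree ≤ 3 ∧
      ∀ (R : Type) [CommRing R], MvPolynomial.map (Int.castRingHom R) (univG ℤ m) = univG R m ∧
        Smooth (cubG R m).hom := by
  have h3 : ∀ t : C.T, ∀ᶠ m in Filter.atTop, ∃ N : ℕ, Factor (C.h1 t) (single D m N) ∧
      (Formulas C (single D m N) → Colmez C t) := by
    intro t
    obtain ⟨Y, hY, hf⟩ := hC.occurs t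
    filter_upwards [occurs_single h hY hf] with m hm
    obtain ⟨N, hN⟩ := hm
    obtain ⟨t', h1, h2, h3⟩ := hC.primitive t
    exact ⟨N, hN, fun g => h3.mpr (g t' h1 (h2.trans hN))⟩
  have h4 : (∀ t : C.T, Colmez C t) ↔
      ∃ᶠ m in Filter.atTop, ∀ N : ℕ, Formulas C (single D m N) := by
    refine ⟨fun g => Filter.Frequently.of_forall fun m N t _ _ => g t, fun g t => ?_⟩
    obtain ⟨m, hm1, N, -, hm2⟩ := (g.and_eventually (h3 t)).exists
    exact hm2 (hm1 N)
  refine ⟨(abelian_occurs isPrimeField_rat h ha).1, h4, h3, ?_, cubG_facts⟩
  rw [← not_iff_not, Filter.not_eventually]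
  push Not
  refine h4.trans ?_
  simp only [Formulas]

end Pool.Agent.Results.MP_a2beea_nt.PiecesOfOneSequence
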