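import Pool.Agent.H298.Colmez.Fld

/-!
# Colmez's product formula for all CM types of CM fields with a small core

`E` is a CM field of degree `2 g`, `E⁺` its maximal real subfield, `K` a CM field, Galois over `ℚ`,
which contains the conjugates of `E`. The notions `conjugation`, `act`, `IsCMType`, `a0` (Colmez's
function `a⁰_{E,ψ,Φ}`), `heightFn` (`A_Φ = ∑_{ψ ∈ Φ} a⁰_{E,ψ,Φ}`, which belongs to the Faltings height of
the abelian varieties with complex multiplication of type `(E, Φ)`), `totalFn` (the sum of the `A_Φ`
over all CM types `Φ` of `E`) and `avgSpan` (the span of `1` and the functions `totalFn` of all fields)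
are those of the file `AveragedAndAbelian` of the starting library.

**Cores** (`coreOf`). The automorphisms of `ℂ` which map all complex embeddings of `E` to themselves
or to their complex conjugates are called sign changes. The first core of an embedding `φ` consists
of the embeddings which are moved by the same sign changes as `φ`. If one uses all automorphisms
which map the elements of the first core to themselves or to their conjugates, one obtains the
second core, inside of the first one, and so on. The cores of the same index have the same number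
`2 m` of elements and `m` divides `g`; `HasCore E m` means that `2 m` is the number of elements of the
cores of some index. `FewPairs E`: a core has at most three pairs of complex conjugate embeddings.

**Criteria (part 1).** `FewPairs E` holds in each of these cases:
* `g ≤ 3`;
* the degree of the Galois closure of `E` over the Galois closure of `E⁺`, which is a power `2 ^ v` of
  two with `1 ≤ v ≤ g`, is larger than `2 ^ (g / 4)`, that is **`v > g / 4`** (`LargeClosure E 4`);
* **some prime number `q` divides the discriminant of `E` and not the one of `E⁺`, and `q ^ 4` does not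
  divide the discriminant of `E`.** (By the formula for the discriminant in towers this means that the
  norm of the relative discriminant of `E / E⁺` is divisible by some prime number `q` which is
  unramified in `E⁺`, but not by `q ^ 4`.)

**Theorem (part 2, unconditional).** If `FewPairs E` then `A_Φ` belongs to `avgSpan K` for ALL CM types
`Φ` of `E` (`TypesInSpan`). The same is true, whatever the number of elements of the core, if the
automorphisms of `ℂ` which map the core to itself act on it with the orders `1, 2, 3, 4, 6`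
(`SmallOrders`).

**Theorem (part 3, unconditional).** The function `a⁰_{E,ψ,Φ}` belongs to `avgSpan K` for ALL CM types
`Φ` of `E` and all embeddings `ψ` (`PairsInSpan`) in each of these cases:
* `FewPairs E` and **no automorphism of `E` has the order three or four** (in particular if
  `Aut(E) = {1, c}`);
* a core of `E` has one pair (for instance if `v > g / 2`);
* the cores of some index have `[E : F]` pairs for a subfield `F` of `E` which is not totally real,
  and the automorphisms of `ℂ` act doubly transitively on the extensions to `E` of an embedding of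
  `F` (any number of pairs);
* `SmallOrders`, and any two elements of a core can be exchanged by an automorphism of `ℂ`.

**Theorem (part 4, the formulas).** By known theorems on heights, `TypesInSpan` implies Colmez's formula
for the Faltings heights of all abelian varieties with complex multiplication by `E`
(`FaltingsFormula`), and `PairsInSpan` implies **the product formula (Q1) for `E`, all CM types and
all `ψ`** (`ProductFormula`). These theorems of the literature are in the structure
`Heights`: the theorem of Colmez (`ht(E,ψ,Φ)` is the value at `a⁰_{E,ψ,Φ}` of a `ℚ`-linear function),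
the averaged formula of Andreatta, Goren, Howard, Madapusi Pera and of Yuan, Zhang, and
`ht(E,ψ,Φ) + ht(E,cψ,Φ) = Z^∞(1, 0)`, which is clear from the definitions and
`ζ'(0) / ζ(0) = log (2 π)`. So part 4 is how one uses parts 2 and 3, which do not depend on them.

**What was known.** The averaged formula and linear algebra give the formula for all CM types if the
Galois group of the closure of `E` contains all `2 ^ g` sign changes (`v = g`; Yang-Yin,
Barquero-Sanchez and Masri); in the library there are exact criteria in terms of the characters of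
the Galois group (`ExactCriterion`, `RationalConstituents`, `PairsOfEmbeddings`), the case in which
linked embeddings have the same image (`FewAutomorphisms`; for instance `E⁺` Galois over `ℚ` with group
of exponent two or three), the doubly transitive case (`F` imaginary quadratic), prime degree, and
`ConjugateExtensions`, which contains the case of a core of index one with one pair. New here are
the iterated cores and the cores with two and three pairs in arbitrary degree, hence the criteria
by `v > g / 4` and by the discriminant, and the doubly transitive cores over fields `F` of any degree.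

## Proof

For `g ∈ G = Gal(K/ℚ)` and embeddings `x`, `y` of `E` let `D_g(x, y)` be the number of the `η ∈ G` with
`η⁻¹ g η x = y` minus the number for `c y`. Then `A_Φ(g) - A_Φ(c g)` is the sum of the
`D_g(x, y) / #G`, `x, y ∈ Φ`, and one must show that these sums do not change if `g` is replaced by
`g ^ j`, `j` prime to `6 #G` (`AveragedAndAbelian`). If `y` is outside of the core of `x`, then some
element of `G` fixes `x` and maps `y` to `c y` (`sep_of_not_mem`) so that `D_g(x, y) = 0`. Now let `y`
be in the core of `x`, and `h = η⁻¹ g η`. If `h` maps `x` into the core, then `h` acts on the core; if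
the order of this action is `1, 2, 3, 4, 6` then `h ^ j` acts as `h` or as `h⁻¹`, and in both cases the
contributions of `η` to `D_g(x, y) + D_g(y, x)` and to `D_{g^j}(x, y) + D_{g^j}(y, x)` are equal
(`dif_add_pow`). In the last core an element which preserves all pairs acts as `1` or `c`; so for at
most three pairs the order of the action is a divisor of four or six (`exp_of_card`). If `x` and `y`
can be exchanged by an element of `G` then `D_g(x, y) = D_g(y, x)`; in the last core with at most three
pairs this is possible if there are no automorphisms of the orders three and four (`swap_small`). In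
the doubly transitive case all `D_g(x, y)` with `y ≠ x` and `y = x` on `F` are equal, and their sum with
`D_g(x, x)` is the corresponding number for the embedding `x|F` of `F`.
-/

set_option autoImplicit false

open NumberField Module
open Pool.Agent.Results.MP_a2beea_nt.AveragedAndAbelian
open Pool.Agent.H298.Core (coreOf HasCore LargeClosure DoublyTransitive)
open Pool.Agent.H298.Colmez (SmallOrders Exchanges)

namespace Pool.Agent.Results.MP_a2beea_nt.SmallCoreFields

/-- Some core of `E` has at most three pairs of complex conjugate embeddings. -/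
def FewPairs (E : Type) [Field E] : Prop := ∃ m ≤ 3, HasCore E m

open scoped Classical in
/-- The heights `ht(E,ψ,Φ)`, for the fields `E` whose conjugates are contained in `K`, and the linear
function `f ↦ Z^∞(f^*, 0)` on the functions on `Gal(K/ℚ)` (extended from the class functions by
averaging over the conjugates), with their known properties. -/
structure Heights (K : Type) [Field K] [NumberField K] [IsCMField K] where
  /-- `ht(E,ψ,Φ)` -/
  ht : ∀ (E : Type) [Field E] [NumberField E], (E →ₐ[ℚ] K) → Finset (E →ₐ[ℚ] K) → ℝ
  /-- `f ↦ Z^∞(f^*, 0)` -/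
  Z : ((K ≃ₐ[ℚ] K) → ℚ) →ₗ[ℚ] ℝ
  /-- Colmez's theorem -/
  linear : ∃ h : ((K ≃ₐ[ℚ] K) → ℚ) →ₗ[ℚ] ℝ, ∀ (E : Type) [Field E] [NumberField E]
    (ψ : E →ₐ[ℚ] K) (Φ : Finset (E →ₐ[ℚ] K)), IsCMType Φ → ht E ψ Φ = h (a0 ψ Φ)
  /-- the averaged formula -/
  average : ∀ (E : Type) [Field E] [NumberField E],
    ∑ Φ ∈ Finset.univ.filter (fun Φ : Finset (E →ₐ[ℚ] K) => IsCMType Φ), ∑ ψ ∈ Φ, ht E ψ Φ =
      Z (totalFn E K)
  /-- the sum for complex conjugate embeddings -/
  conj : ∀ (E : Type) [Field E] [NumberField E] (ψ : E →ₐ[ℚ] K) (Φ : Finset (E →ₐ[ℚ] K)),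
    IsCMType Φ → ht E ψ Φ + ht E (act (conjugation K) ψ) Φ = Z fun _ => 1

/-- The functions `A_Φ` belong to `avgSpan K` for all CM types `Φ` of `E`. -/
def TypesInSpan (K : Type) [Field K] [NumberField K] [IsCMField K] (E : Type) [Field E]
    [NumberField E] : Prop :=
  ∀ Φ : Finset (E →ₐ[ℚ] K), IsCMType Φ → heightFn Φ ∈ avgSpan K

/-- The functions `a⁰_{E,ψ,Φ}` belong to `avgSpan K` for all CM types `Φ` and all embeddings `ψ` of
`E`. -/
def PairsInSpan (K : Type) [Field K] [NumberField K] [IsCMField K] (E : Type) [Field E]
    [NumberField E] : Prop :=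
  ∀ Φ : Finset (E →ₐ[ℚ] K), IsCMType Φ → ∀ ψ : E →ₐ[ℚ] K, a0 ψ Φ ∈ avgSpan K

/-- The product formula for all CM types `Φ` and all embeddings `ψ` of `E`. -/
def ProductFormula {K : Type} [Field K] [NumberField K] [IsCMField K] (H : Heights K)
    (E : Type) [Field E] [NumberField E] : Prop :=
  ∀ (Φ : Finset (E →ₐ[ℚ] K)), IsCMType Φ → ∀ ψ : E →ₐ[ℚ] K, H.ht E ψ Φ = H.Z (a0 ψ Φ)

/-- Colmez's formula for the Faltings heights of all abelian varieties with complex multiplication
by `E`. -/
def FaltingsFormula {K : Type} [Field K] [NumberField K] [IsCMField K] (H : Heights K)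
    (E : Type) [Field E] [NumberField E] : Prop :=
  ∀ (Φ : Finset (E →ₐ[ℚ] K)), IsCMType Φ → ∑ ψ ∈ Φ, H.ht E ψ Φ = H.Z (heightFn Φ)

section

variable {E K : Type} [Field E] [NumberField E] [Field K] [NumberField K] [IsCMField K]

omit [IsCMField K] in
lemma sum_a0 (Φ : Finset (E →ₐ[ℚ] K)) : heightFn Φ = ∑ ψ ∈ Φ, a0 ψ Φ := by
  funext g
  rw [Finset.sum_apply]
  rfl

open scoped Classical in
lemma eq_on_avgSpan (H : Heights K) {h : ((K ≃ₐ[ℚ] K) → ℚ) →ₗ[ℚ] ℝ}
    (hh : ∀ (E : Type) [Field E] [NumberField E] (ψ : E →ₐ[ℚ] K) (Φ : Finset (E →ₐ[ℚ] K)),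
      IsCMType Φ → H.ht E ψ Φ = h (a0 ψ Φ)) (ψ : E →ₐ[ℚ] K) {Φ : Finset (E →ₐ[ℚ] K)}
    (hΦ : IsCMType Φ) {f : (K ≃ₐ[ℚ] K) → ℚ} (hf : f ∈ avgSpan K) : h f = H.Z f := by
  refine LinearMap.eqOn_span (f := h) (g := H.Z) ?_ hf
  rintro f (rfl | ⟨E', _, _, rfl⟩)
  · rw [← H.conj E ψ Φ hΦ, hh E ψ Φ hΦ, hh E _ Φ hΦ, ← map_add]
    congr 1
    funext g
    have h1 := Pool.Agent.Q11.CZ.a0_add Pool.Agent.Q11.CZ.conj_comm ψ (isHalf hΦ) g
    rw [Pi.add_apply, a0_eq, a0_eq, ← h1]
    congr 1
    rw [← a0_eq, ← a0_eq]
    unfold a0
    congr 2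
    refine Nat.card_congr (Equiv.subtypeEquivRight fun η => ?_)
    have h2 : act (η⁻¹ * (Pool.Agent.Q11.CZ.conj K * g) * η) ψ =
        act (η⁻¹ * g * η) (act (conjugation K) ψ) := by
      have h3 : η⁻¹ * (Pool.Agent.Q11.CZ.conj K * g) * η =
          η⁻¹ * g * η * Pool.Agent.Q11.CZ.conj K := by
        have h4 := Pool.Agent.Q11.CZ.conj_comm (K := K)
        rw [h4 g, mul_assoc η⁻¹, mul_assoc g, h4 η]
        group
      rw [h3]
      rfl
    rw [h2]
  · rw [← H.average E']
    have h1 : totalFn E' K = ∑ Φ ∈ Finset.univ.filter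
        (fun Φ : Finset (E' →ₐ[ℚ] K) => IsCMType Φ), heightFn Φ := by
      funext g
      rw [Finset.sum_apply]
      rfl
    rw [h1, map_sum]
    refine Finset.sum_congr rfl fun Φ' hΦ' => ?_
    rw [sum_a0, map_sum]
    exact Finset.sum_congr rfl fun ψ' _ => (hh E' ψ' Φ' (Finset.mem_filter.1 hΦ').2).symm

lemma productFormula_of (H : Heights K) (h : PairsInSpan K E) : ProductFormula H E := by
  intro Φ hΦ ψ
  obtain ⟨l, hl⟩ := H.linear
  rw [hl E ψ Φ hΦ]
  exact eq_on_avgSpan H hl ψ hΦ (h Φ hΦ ψ)

lemma faltingsFormula_of (H : Heights K) (h : TypesInSpan K E) : FaltingsFormula H E := by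
  intro Φ hΦ
  rcases Φ.eq_empty_or_nonempty with rfl | ⟨ψ, -⟩
  · have h1 : heightFn (∅ : Finset (E →ₐ[ℚ] K)) = 0 := by
      rw [sum_a0, Finset.sum_empty]
    rw [h1, map_zero, Finset.sum_empty]
  · obtain ⟨l, hl⟩ := H.linear
    rw [← eq_on_avgSpan H hl ψ hΦ (h Φ hΦ), sum_a0, map_sum]
    exact Finset.sum_congr rfl fun ψ' _ => hl E ψ' Φ hΦ

end

/-- **Colmez's product formula for all CM types of CM fields with a small core.** -/
theorem result (E : Type) [Field E] [NumberField E] [IsCMField E] :
    -- 1: criteria
    ((finrank ℚ E ≤ 6 ∨ LargeClosure E 4 ∨ (∃ q : ℕ, q.Prime ∧ (q : ℤ) ∣ discr E ∧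
        ¬ (q : ℤ) ∣ discr (maximalRealSubfield E) ∧ ¬ (q : ℤ) ^ 4 ∣ discr E) → FewPairs E) ∧
      (LargeClosure E 2 → HasCore E 1)) ∧
    ∀ (K : Type) [Field K] [NumberField K] [IsGalois ℚ K] [IsCMField K],
      -- 2: the functions `A_Φ`
      (FewPairs E → TypesInSpan K E) ∧
      (∀ n : ℕ, SmallOrders E n → TypesInSpan K E) ∧
      -- 3: the functions `a⁰_{E,ψ,Φ}`
      (FewPairs E → (∀ a : E ≃ₐ[ℚ] E, orderOf a ≠ 3 ∧ orderOf a ≠ 4) → PairsInSpan K E) ∧
      (HasCore E 1 → PairsInSpan K E) ∧
      (∀ F : IntermediateField ℚ E, HasCore E (finrank F E) → ¬ IsTotallyReal F →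
        DoublyTransitive F → PairsInSpan K E) ∧
      (∀ n : ℕ, SmallOrders E n → Exchanges E n → PairsInSpan K E) ∧
      -- 4: the formulas, by the known theorems on heights
      ∀ H : Heights K, (TypesInSpan K E → FaltingsFormula H E) ∧
        (PairsInSpan K E → ProductFormula H E) := by
  obtain ⟨-, f2, ⟨m, hm, hm0, -, hmq⟩, -, f5, -⟩ := Pool.Agent.H298.Core.coreFacts_hold E
  refine ⟨⟨?_, fun h => ?_⟩, fun K _ _ _ _ => ⟨?_, ?_, ?_, ?_, ?_, ?_, fun H =>
    ⟨faltingsFormula_of H, productFormula_of H⟩⟩⟩
  · rintro (h | h | ⟨q, hq, h1, h2, h3⟩)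
    · have hev : 2 ∣ finrank ℚ E := by
        rw [← finrank_mul_finrank ℚ (maximalRealSubfield E) E,
          Algebra.IsQuadraticExtension.finrank_eq_two (maximalRealSubfield E) E]
        exact Dvd.intro_left _ rfl
      obtain ⟨g, hg⟩ := hev
      exact ⟨g, by omega, f2 g hg⟩
    · obtain ⟨c, hc, -, hc4⟩ := f5 4 h
      exact ⟨c, by omega, hc⟩
    · refine ⟨m, ?_, hm⟩
      by_contra hcon
      have h4 : 4 ≤ m := by omega
      exact h3 ((pow_dvd_pow _ h4).trans (hmq q hq h1 h2))
  · obtain ⟨c, hc, hc0, hc2⟩ := f5 2 h
    have h1 : c = 1 := by omega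
    rwa [h1] at hc
  · rintro ⟨m, hm3, hm⟩
    exact fun Φ hΦ => Pool.Agent.H298.Colmez.height_small hm hm3 Φ hΦ
  · intro n hn
    exact fun Φ hΦ => Pool.Agent.H298.Colmez.height_orders hn Φ hΦ
  · rintro ⟨m, hm3, hm⟩ hE
    exact fun Φ hΦ ψ => Pool.Agent.H298.Colmez.a0_small hm hm3 hE Φ hΦ ψ
  · intro hm
    exact fun Φ hΦ ψ => Pool.Agent.H298.Colmez.a0_one hm Φ hΦ ψ
  · intro F hm hF hF2
    exact fun Φ hΦ ψ => Pool.Agent.H298.Colmez.a0_doublyTransitive hm hF hF2 Φ hΦ ψ
  · intro n hn hex
    exact fun Φ hΦ ψ => Pool.Agent.H298.Colmez.a0_orders hn hex Φ hΦ ψ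

end Pool.Agent.Results.MP_a2beea_nt.SmallCoreFields
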